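import Pool.Agent.W780.BB.Stm

set_option autoImplicit false

/-!
Folding preserves the measure.
-/

namespace Pool.Agent.W333.BB

open Complex Set MeasureTheory Filter Topology Pool.Agent.W780.PG Pool.Agent.W780.BB

open scoped Real ComplexConjugate

variable {n : ℕ}

theorem dir_eq (t : ℝ) : dir t = (Circle.exp t : ℂ) := by
  unfold dir
  rw [Circle.coe_exp]

/-- the linear part of the reflection -/
noncomputable def LL (t : ℝ) : ℂ ≃ₗᵢ[ℝ] ℂ := conjLIE.trans (rotation (Circle.exp t))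

theorem LL_apply (t : ℝ) (z : ℂ) : LL t z = dir t * conj z := by
  unfold LL
  rw [LinearIsometryEquiv.trans_apply, rotation_apply, dir_eq]
  rfl

theorem rf_eq (p : Fin (n + 3) → ℂ) (i : Fin (n + 3)) (z : ℂ) :
    rf p i z = LL (2 * tau p i) z + (p i - LL (2 * tau p i) (p i)) := by
  unfold rf
  rw [LL_apply, LL_apply, map_sub]
  ring

theorem dir_mul_conj (t : ℝ) : dir t * conj (dir t) = 1 := by
  rw [dir_eq, Complex.mul_conj, Complex.normSq_eq_norm_sq, Circle.norm_coe]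
  norm_num

theorem rf_rf (p : Fin (n + 3) → ℂ) (i : Fin (n + 3)) (z : ℂ) : rf p i (rf p i z) = z := by
  unfold rf
  rw [add_sub_cancel_left, map_mul, Complex.conj_conj, ← mul_assoc, dir_mul_conj]
  ring

theorem rs_rs (p : Fin (n + 3) → ℂ) (i : Fin (n + 3)) (x : ℂ × ℝ) : rs p i (rs p i x) = x := by
  unfold rs
  ext1
  · exact rf_rf p i x.1
  · simp

theorem continuous_rf (p : Fin (n + 3) → ℂ) (i : Fin (n + 3)) : Continuous (rf p i) := by
  unfold rf
  fun_prop

theorem continuous_rs (p : Fin (n + 3) → ℂ) (i : Fin (n + 3)) : Continuous (rs p i) := by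
  have := continuous_rf p i
  unfold rs
  fun_prop

theorem bij_rs (p : Fin (n + 3) → ℂ) (i : Fin (n + 3)) : Function.Bijective (rs p i) :=
  (Function.Involutive.bijective (rs_rs p i))

theorem mp_rf (p : Fin (n + 3) → ℂ) (i : Fin (n + 3)) : MeasurePreserving (rf p i) := by
  have h := (measurePreserving_add_right (volume : Measure ℂ)
    (p i - LL (2 * tau p i) (p i))).comp (LL (2 * tau p i)).measurePreserving
  have e : rf p i = (fun x => x + (p i - LL (2 * tau p i) (p i))) ∘ (LL (2 * tau p i)) := by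
    funext z
    exact rf_eq p i z
  rw [e]
  exact h

theorem mp_rs (p : Fin (n + 3) → ℂ) (i : Fin (n + 3)) : MeasurePreserving (rs p i) := by
  have h := (mp_rf p i).prod (Measure.measurePreserving_sub_left (volume : Measure ℝ) (2 * tau p i))
  exact h

theorem strip_eq {S : Set (ℂ × ℝ)} (hS : MeasurableSet S)
    (hper : ∀ z θ, (z, θ + 2 * π) ∈ S ↔ (z, θ) ∈ S) (c : ℝ) :
    volume (S ∩ (univ ×ˢ Ioc (c - 2 * π) c)) = volume (S ∩ (univ ×ˢ Ico 0 (2 * π))) := by
  rw [Measure.volume_eq_prod,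
    Measure.prod_apply (hS.inter (MeasurableSet.univ.prod measurableSet_Ioc)),
    Measure.prod_apply (hS.inter (MeasurableSet.univ.prod measurableSet_Ico))]
  refine lintegral_congr fun z => ?_
  have e : ∀ J : Set ℝ, Prod.mk z ⁻¹' (S ∩ (univ ×ˢ J)) = (Prod.mk z ⁻¹' S) ∩ J := by
    intro J; ext θ; simp
  rw [e, e]
  have hA : MeasurableSet (Prod.mk z ⁻¹' S) := measurable_prodMk_left hS
  have hT : (0 : ℝ) < 2 * π := Real.two_pi_pos
  have hf : Function.Periodic (fun θ : ℝ => ((z, θ) ∈ S : Prop)) (2 * π) :=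
    fun θ => propext (hper z θ)
  have hinv : ∀ g : AddSubgroup.zmultiples (2 * π), (fun x : ℝ => g +ᵥ x) ⁻¹' (Prod.mk z ⁻¹' S) =
      Prod.mk z ⁻¹' S := by
    rintro ⟨_, k, rfl⟩
    ext θ
    have h := hf.int_mul k θ
    have h2 : ((z, θ + (k : ℝ) * (2 * π)) ∈ S) = ((z, θ) ∈ S) := h
    show (z, (k • (2 * π) : ℝ) + θ) ∈ S ↔ (z, θ) ∈ S
    rw [zsmul_eq_mul, add_comm, h2]
  have h1 := (isAddFundamentalDomain_Ioc hT (c - 2 * π)).measure_set_eq
    (isAddFundamentalDomain_Ioc hT 0) hA hinv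
  rw [sub_add_cancel, zero_add] at h1
  rw [h1]
  exact measure_congr ((ae_eq_refl _).inter Ico_ae_eq_Ioc.symm)

theorem one_refl (p : Fin (n + 3) → ℂ) (i : Fin (n + 3)) {S : Set (ℂ × ℝ)} (hS : MeasurableSet S)
    (hper : ∀ z θ, (z, θ + 2 * π) ∈ S ↔ (z, θ) ∈ S) :
    volume ((rs p i ⁻¹' S) ∩ (univ ×ˢ Ico 0 (2 * π))) = volume (S ∩ (univ ×ˢ Ico 0 (2 * π))) := by
  have e : (rs p i ⁻¹' S) ∩ (univ ×ˢ Ico 0 (2 * π)) =
      rs p i ⁻¹' (S ∩ (univ ×ˢ Ioc (2 * tau p i - 2 * π) (2 * tau p i))) := by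
    ext x
    simp only [mem_inter_iff, mem_preimage, mem_prod, mem_univ, true_and, mem_Ico, mem_Ioc, rs]
    constructor
    · rintro ⟨h1, h2, h3⟩; exact ⟨h1, by linarith, by linarith⟩
    · rintro ⟨h1, h2, h3⟩; exact ⟨h1, by linarith, by linarith⟩
  rw [e, (mp_rs p i).measure_preimage
    (hS.inter (MeasurableSet.univ.prod measurableSet_Ioc)).nullMeasurableSet, strip_eq hS hper]

theorem per_fd (p : Fin (n + 3) → ℂ) {S : Set (ℂ × ℝ)}
    (hper : ∀ z θ, (z, θ + 2 * π) ∈ S ↔ (z, θ) ∈ S) : ∀ (w : List (Fin (n + 3))) (z : ℂ) (θ : ℝ),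
    (z, θ + 2 * π) ∈ fd p w ⁻¹' S ↔ (z, θ) ∈ fd p w ⁻¹' S := by
  intro w
  induction w with
  | nil => intro z θ; exact hper z θ
  | cons i w ih =>
    intro z θ
    have h := ih (rf p i z) (2 * tau p i - (θ + 2 * π))
    rw [show 2 * tau p i - (θ + 2 * π) + 2 * π = 2 * tau p i - θ by ring] at h
    exact h.symm

/-- **folding preserves the measure** -/
theorem mp : S_Mp := by
  intro n p _ w
  have hc : ∀ w : List (Fin (n + 3)), Continuous (fd p w) := by
    intro w
    induction w with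
    | nil => exact continuous_id
    | cons i w ih => exact ih.comp (continuous_rs p i)
  induction w with
  | nil =>
    exact ⟨continuous_id, Function.bijective_id, MeasurePreserving.id _, fun S _ _ => rfl⟩
  | cons i w ih =>
    obtain ⟨h1, h2, h3, h4⟩ := ih
    refine ⟨hc _, h2.comp (bij_rs p i), h3.comp (mp_rs p i), fun S hS hper => ?_⟩
    have hS' : MeasurableSet (fd p w ⁻¹' S) := h1.measurable hS
    have h5 := one_refl p i hS' (per_fd p hper w)
    rw [h4 S hS hper] at h5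
    exact h5

end Pool.Agent.W333.BB
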